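import Pool.Agent.H77.PUC.StmtsE

/-!
# BAS: an integral basis of `F'/K(z)` and generic invertibility of the matrix of its values
-/

universe u

namespace PUC

open Polynomial Filter Topology Metric

theorem sBas (hZer : SZer.{u}) (hGro : SGro.{u}) : SBas.{u} := by
  classical
  intro K Ω _ _ _ _ _ _ _ _ _ _ F' _ _
  -- an integral basis
  let _ : Algebra K[X] F' := ((algebraMap (RatFunc K) F').comp (algebraMap K[X] (RatFunc K))).toAlgebra
  have : IsScalarTower K[X] (RatFunc K) F' := IsScalarTower.of_algebraMap_eq' rfl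
  obtain ⟨s, b₀, hb₀⟩ := FiniteDimensional.exists_is_basis_integral K[X] (RatFunc K) F'
  set n := Fintype.card s with hn
  set b : Module.Basis (Fin n) (RatFunc K) F' := b₀.reindex (Fintype.equivFin s) with hb
  have hbint : ∀ i, IsIntegral K[X] (b i) := by
    intro i
    rw [hb, Module.Basis.reindex_apply]
    exact hb₀ _
  -- the dual basis
  set c : Module.Basis (Fin n) (RatFunc K) F' :=
    (Algebra.traceForm (RatFunc K) F').dualBasis (traceForm_nondegenerate (RatFunc K) F') b with hc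
  have hcb : ∀ i j, Algebra.trace (RatFunc K) F' (c i * b j) = if j = i then 1 else 0 := by
    intro i j
    have := (Algebra.traceForm (RatFunc K) F').apply_dualBasis_left
      (traceForm_nondegenerate (RatFunc K) F') b i j
    rw [Algebra.traceForm_apply] at this
    exact this
  -- the inverse matrix
  have hcard : Fintype.card (Fin n) = Fintype.card (F' ≃ₐ[RatFunc K] F') := by
    rw [← Nat.card_eq_fintype_card (α := F' ≃ₐ[RatFunc K] F'), IsGalois.card_aut_eq_finrank,
      Module.finrank_eq_card_basis b]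
  have hinv : ∀ γ γ' : F' ≃ₐ[RatFunc K] F', ∑ i, γ' (c i) * γ (b i) = if γ' = γ then 1 else 0 := by
    let M : Matrix (Fin n) (F' ≃ₐ[RatFunc K] F') F' := Matrix.of fun i γ => γ (b i)
    let N : Matrix (F' ≃ₐ[RatFunc K] F') (Fin n) F' := Matrix.of fun γ i => γ (c i)
    have h1 : M * N = 1 := by
      ext i j
      rw [Matrix.mul_apply, Matrix.one_apply]
      have h2 : ∑ γ : F' ≃ₐ[RatFunc K] F', M i γ * N γ j =
          algebraMap (RatFunc K) F' (Algebra.trace (RatFunc K) F' (c j * b i)) := by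
        rw [trace_eq_sum_automorphisms]
        refine Finset.sum_congr rfl fun γ _ => ?_
        rw [map_mul, mul_comm]
        rfl
      rw [h2, hcb]
      split_ifs <;> simp
    have h3 : N * M = 1 := (Matrix.mul_eq_one_comm_of_card_eq _ _ _ hcard).1 h1
    intro γ γ'
    have h4 := congrFun (congrFun h3 γ') γ
    rw [Matrix.mul_apply, Matrix.one_apply] at h4
    exact h4
  -- growth
  have hgro : ∀ (x : Fin n × (F' ≃ₐ[RatFunc K] F')), ∃ (κ : ℝ) (m : ℕ), ∀ P : Place K Ω,
      zz K Ω ∈ P.ring → ((x.2 (b x.1) : F') : Ω) ∈ P.ring ∧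
      ‖P.val ((x.2 (b x.1) : F') : Ω)‖ ≤ κ * max 1 ‖P.val (zz K Ω)‖ ^ m := by
    rintro ⟨i, γ⟩
    obtain ⟨Q, hQ, hQ2⟩ := hbint i
    have h1 : Q.eval₂ ((algebraMap (RatFunc K) Ω).comp (algebraMap K[X] (RatFunc K)))
        (((γ (b i) : F') : Ω)) = 0 := by
      let φ : F' →+* Ω := (F'.val : F' →+* Ω).comp (γ : F' →+* F')
      have h2 : φ.comp (algebraMap K[X] F') =
          (algebraMap (RatFunc K) Ω).comp (algebraMap K[X] (RatFunc K)) := by
        refine RingHom.ext fun x => ?_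
        show ((γ (algebraMap (RatFunc K) F' (algebraMap K[X] (RatFunc K) x)) : F') : Ω) =
          algebraMap (RatFunc K) Ω (algebraMap K[X] (RatFunc K) x)
        rw [γ.commutes]
        rfl
      have h3 := congrArg φ hQ2
      rw [Polynomial.hom_eval₂, h2, map_zero] at h3
      exact h3
    exact hGro K Ω _ Q hQ h1
  choose κ m hκ using hgro
  -- the exceptional set
  have hzer : ∀ (x : Fin n × (F' ≃ₐ[RatFunc K] F')), ∃ B : Finset K, ∀ P : Place K Ω,
      zz K Ω ∈ P.ring → P.val (zz K Ω) ∉ B → ((x.2 (c x.1) : F') : Ω) ∈ P.ring := by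
    rintro ⟨i, γ⟩
    have h0 : ((γ (c i) : F') : Ω) ≠ 0 := by
      have h1 : c i ≠ 0 := c.ne_zero i
      intro h2
      apply h1
      have h3 : γ (c i) = 0 := Subtype.ext h2
      exact (map_eq_zero_iff γ γ.injective).1 h3
    obtain ⟨B, hB⟩ := hZer K Ω _ h0
    exact ⟨B, fun P h1 h2 => (hB P h1 h2).1⟩
  choose B hB using hzer
  refine ⟨n, b, ∑ x, |κ x|, ∑ x, m x, Finset.univ.biUnion B, ?_, ?_, ?_⟩
  · intro P hP i γ
    obtain ⟨h1, h2⟩ := hκ (i, γ) P hP
    refine ⟨h1, h2.trans ?_⟩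
    have h3 : (1 : ℝ) ≤ max 1 ‖P.val (zz K Ω)‖ := le_max_left _ _
    have h4 : κ (i, γ) ≤ ∑ x, |κ x| := (le_abs_self _).trans
      (Finset.single_le_sum (f := fun x => |κ x|) (fun x _ => abs_nonneg _) (Finset.mem_univ _))
    have h5 : m (i, γ) ≤ ∑ x, m x :=
      Finset.single_le_sum (f := m) (fun x _ => Nat.zero_le _) (Finset.mem_univ _)
    have h6 := pow_le_pow_right₀ h3 h5
    have h7 : (0 : ℝ) ≤ ∑ x, |κ x| := Finset.sum_nonneg fun x _ => abs_nonneg _
    calc κ (i, γ) * max 1 ‖P.val (zz K Ω)‖ ^ m (i, γ)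
        ≤ (∑ x, |κ x|) * max 1 ‖P.val (zz K Ω)‖ ^ m (i, γ) :=
          mul_le_mul_of_nonneg_right h4 (by positivity)
      _ ≤ _ := mul_le_mul_of_nonneg_left h6 h7
  · intro R
    refine ⟨∑ j, algebraMap (RatFunc K) F' (R j) * c j, fun i => ?_⟩
    have h1 : ∑ γ : F' ≃ₐ[RatFunc K] F', γ (∑ j, algebraMap (RatFunc K) F' (R j) * c j) * γ (b i) =
        algebraMap (RatFunc K) F' (Algebra.trace (RatFunc K) F'
          ((∑ j, algebraMap (RatFunc K) F' (R j) * c j) * b i)) := by
      rw [trace_eq_sum_automorphisms]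
      exact Finset.sum_congr rfl fun γ _ => (map_mul γ _ _).symm
    rw [h1]
    congr 1
    have h2 : (∑ j, algebraMap (RatFunc K) F' (R j) * c j) * b i = ∑ j, R j • (c j * b i) := by
      rw [Finset.sum_mul]
      exact Finset.sum_congr rfl fun j _ => by rw [mul_assoc, Algebra.smul_def]
    rw [h2, map_sum, Finset.sum_eq_single i]
    · rw [map_smul, hcb, if_pos rfl, smul_eq_mul, mul_one]
    · intro j _ hj
      rw [map_smul, hcb, if_neg (Ne.symm hj), smul_zero]
    · intro h; exact absurd (Finset.mem_univ i) h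
  · intro P hP hPB t ht γ'
    have hcP : ∀ i, ((γ' (c i) : F') : Ω) ∈ P.ring := fun i => hB (i, γ') P hP fun h =>
      hPB (Finset.mem_biUnion.2 ⟨_, Finset.mem_univ _, h⟩)
    have hbP : ∀ (i : Fin n) (γ : F' ≃ₐ[RatFunc K] F'), ((γ (b i) : F') : Ω) ∈ P.ring :=
      fun i γ => (hκ (i, γ) P hP).1
    have h1 : ∑ i, P.val ((γ' (c i) : F') : Ω) *
        ∑ γ : F' ≃ₐ[RatFunc K] F', t γ * P.val ((γ (b i) : F') : Ω) = 0 :=
      Finset.sum_eq_zero fun i _ => by rw [ht i, mul_zero]
    have h2 : ∑ i, P.val ((γ' (c i) : F') : Ω) *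
        ∑ γ : F' ≃ₐ[RatFunc K] F', t γ * P.val ((γ (b i) : F') : Ω) =
        ∑ γ : F' ≃ₐ[RatFunc K] F', t γ * (if γ' = γ then 1 else 0) := by
      simp only [Finset.mul_sum]
      rw [Finset.sum_comm]
      refine Finset.sum_congr rfl fun γ _ => ?_
      have h3 : P.val (((∑ i, γ' (c i) * γ (b i) : F')) : Ω) =
          ∑ i, P.val ((γ' (c i) : F') : Ω) * P.val ((γ (b i) : F') : Ω) := by
        have h4 : (((∑ i, γ' (c i) * γ (b i) : F')) : Ω) =
            ∑ i, ((γ' (c i) : F') : Ω) * ((γ (b i) : F') : Ω) := by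
          simp
        rw [h4, P.val_sum _ _ fun i _ => P.ring.mul_mem _ _ (hcP i) (hbP i γ)]
        exact Finset.sum_congr rfl fun i _ => P.val_mul (hcP i) (hbP i γ)
      rw [hinv] at h3
      have h5 : P.val (((if γ' = γ then 1 else 0 : F')) : Ω) = if γ' = γ then 1 else 0 := by
        split_ifs <;> simp
      rw [h5] at h3
      rw [h3, Finset.mul_sum]
      exact Finset.sum_congr rfl fun i _ => by ring
    rw [h1] at h2
    simpa using h2.symm

end PUC
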