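import Pool.Agent.H77.PUC.StmtsE

/-!
# LDP: at the points of `K`
-/

universe u

namespace PUC

open Polynomial Filter Topology Metric

theorem LDP_val {K Ω : Type u} [NormedField K] [Field Ω] [Algebra K Ω] [Algebra (RatFunc K) Ω]
    [IsScalarTower K (RatFunc K) Ω] (a0 c0 : K) (hc : c0 ≠ 0) (P : Place K Ω) :
    P ∈ (DomR {algebraMap K (RatFunc K) c0⁻¹ * (RatFunc.X - algebraMap K (RatFunc K) a0)} :
      Set (Place K Ω)) ↔ P ∈ (Disc a0 c0 : Set (Place K Ω)) := by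
  have e : algebraMap (RatFunc K) Ω
      (algebraMap K (RatFunc K) c0⁻¹ * (RatFunc.X - algebraMap K (RatFunc K) a0)) =
      algebraMap K Ω c0⁻¹ * (zz K Ω - algebraMap K Ω a0) := by
    rw [map_mul, map_sub, ← IsScalarTower.algebraMap_apply K (RatFunc K) Ω,
      ← IsScalarTower.algebraMap_apply K (RatFunc K) Ω]
    rfl
  have hmem : (algebraMap K Ω c0⁻¹ * (zz K Ω - algebraMap K Ω a0)) ∈ P.ring ↔
      zz K Ω ∈ P.ring := by
    constructor
    · intro h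
      have h1 := P.ring.mul_mem _ _ (P.alg_mem c0) h
      rw [← mul_assoc, ← map_mul, mul_inv_cancel₀ hc, map_one, one_mul] at h1
      have h2 := P.ring.add_mem _ _ h1 (P.alg_mem a0)
      simpa using h2
    · intro h
      exact P.ring.mul_mem _ _ (P.alg_mem _) (P.ring.sub_mem h (P.alg_mem a0))
  unfold DomR Disc
  simp only [Finset.mem_singleton, Set.mem_setOf_eq, forall_eq]
  rw [e, hmem]
  refine and_congr_right fun hz => ?_
  have h3 : zz K Ω - algebraMap K Ω a0 ∈ P.ring := P.ring.sub_mem hz (P.alg_mem a0)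
  rw [P.val_mul (P.alg_mem _) h3, P.val_algebraMap, P.val_sub hz (P.alg_mem a0),
    P.val_algebraMap, norm_mul, norm_inv, inv_mul_le_iff₀ (norm_pos_iff.2 hc), mul_one]

theorem LDP_gact {K Ω : Type u} [NormedField K] [Field Ω] [Algebra K Ω] [Algebra (RatFunc K) Ω]
    [IsScalarTower K (RatFunc K) Ω] (a0 c0 : K) (P : Place K Ω)
    (hP : P ∈ (Disc a0 c0 : Set (Place K Ω))) (σ : Ω ≃ₐ[RatFunc K] Ω) :
    P.gact σ ∈ (Disc a0 c0 : Set (Place K Ω)) ∧ (P.gact σ).val (zz K Ω) = P.val (zz K Ω) := by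
  have hσ : σ (zz K Ω) = zz K Ω := σ.commutes _
  refine ⟨⟨?_, ?_⟩, ?_⟩
  · rw [Place.mem_gact, hσ]
    exact hP.1
  · rw [Place.val_gact, hσ]
    exact hP.2
  · rw [Place.val_gact, hσ]

theorem sLdp (hDpl : SDpl.{u}) (hNea : SNea.{u}) (hZpl : SZpl.{u}) : SLdp.{u} := by
  intro K Ω _ _ _ _ _ _ _ _ _ _ _ a0 c0 η H hdata c hc
  obtain ⟨hc0, hη, G, hG, hF⟩ := hdata
  set TA : Finset (RatFunc K) :=
    {algebraMap K (RatFunc K) c0⁻¹ * (RatFunc.X - algebraMap K (RatFunc K) a0)} with hTA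
  have hset : (DomR TA : Set (Place K Ω)) = Disc a0 c0 := by
    ext P
    exact LDP_val a0 c0 hc0 P
  obtain ⟨hz1, -, -⟩ := hZpl K Ω
  obtain ⟨P0, hP0, hP0v⟩ := hz1 c
  have hP0D : P0 ∈ (Disc a0 c0 : Set (Place K Ω)) := ⟨hP0, by rw [hP0v]; exact hc⟩
  obtain ⟨T', hT', hT2⟩ := hDpl K Ω TA G η hη (by
    intro P hP σ
    rw [hset] at hP
    obtain ⟨h1, h2⟩ := LDP_gact a0 c0 P hP σ
    rw [hG _ h1, hG _ hP, h2]) (by rw [hset]; exact hF) P0 (by rw [hset]; exact hP0D)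
  obtain ⟨r, hr, hr2⟩ := (hNea K Ω P0 T' hT').1 hP0
  refine ⟨r, hr, fun a ha => ?_⟩
  obtain ⟨P, hP, hPv⟩ := hz1 a
  have h1 := hr2 P hP (by
    rw [hPv, hP0v]
    rw [mem_closedBall, dist_eq_norm] at ha
    exact ha)
  obtain ⟨h2, h3⟩ := hT2 P h1
  rw [hset] at h2
  rw [hG _ h2, hG _ hP0D, hPv, hP0v] at h3
  exact h3

end PUC
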